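import Pool.Agent.H83.Ga3

set_option autoImplicit false

namespace Pool.Agent.Results.MP_c7b1db_lc.No

open Pool.Agent.H83.Ga

/-- Every almost total enumeration degree is graph-cototal. -/
theorem result : ∀ A : Set ℕ, AlmostTotal A → GraphCototal A := fun _ h => main h

end Pool.Agent.Results.MP_c7b1db_lc.No
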